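import Pool.Agent.V11230.EdgeSeq3
import Pool.Agent.NPC.Classes
import Pool.Agent.NPC.Dec

/-!
# Recognising whether given edge sequences can be paths of a graph is NP-hard

A long sequence forces a path of `24 m` edges, the frame, which is divided into blocks of six edges.
A short sequence consisting of an edge `e` and of the second edge of a block forces that `e` contains
one of the two ends of this edge, which is a binary choice; sequences of three edges fix the choice.
Two edges that form a sequence share a vertex, and this makes choices equal.  The only source of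
inequality is that the graph is simple: two different edges do not have the same ends.  For each
clause six edges between the block of the clause and the blocks of its variables are used.
-/

set_option autoImplicit false

namespace Pool.Agent.NPC.V11230.ES

open Pool.Agent.NPC

variable {φ : List Cl} {τ : ℕ → Bool}

theorem seqs_cl (hd : Distinct3 φ) (hb : Bounded3 φ) {k : ℕ} (hk : k < φ.length) :
    ∀ s ∈ clSeqs φ.length (φ[k], k), IsPathSeq (rr φ τ) s := by
  have hd' := hd _ (List.getElem_mem hk)
  have hb' := hb _ (List.getElem_mem hk)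
  have r0 := rr_cl (φ := φ) (τ := τ) (k := k) (j := 0) hk (by omega)
  have r1 := rr_cl (φ := φ) (τ := τ) (k := k) (j := 1) hk (by omega)
  have r2 := rr_cl (φ := φ) (τ := τ) (k := k) (j := 2) hk (by omega)
  have r3 := rr_cl (φ := φ) (τ := τ) (k := k) (j := 3) hk (by omega)
  have r4 := rr_cl (φ := φ) (τ := τ) (k := k) (j := 4) hk (by omega)
  have r5 := rr_cl (φ := φ) (τ := τ) (k := k) (j := 5) hk (by omega)
  simp (config := {decide := true}) only [trip, if_true, if_false, add_zero] at r0 r1 r2 r3 r4 r5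
  generalize sV τ φ[k] = s at *
  generalize tV τ φ[k] = t at *
  generalize φ[k] = c at *
  obtain ⟨⟨q1, x1⟩, ⟨q2, x2⟩, ⟨q3, x3⟩⟩ := c
  obtain ⟨d12, d13, d23⟩ := hd'
  obtain ⟨b1, b2, b3⟩ := hb'
  simp only at d12 d13 d23 b1 b2 b3 r0 r1 r2 r3 r4 r5
  simp only [clSeqs, List.mem_cons, List.not_mem_nil, or_false, forall_eq_or_imp, forall_eq]
  have hK : 3 * φ.length + k < 4 * φ.length := by omega
  have e18 : 18 * φ.length + 6 * k + 1 = 6 * (3 * φ.length + k) + 1 := by ring
  rw [e18]
  have ls := loc_bd (3 * φ.length + k) s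
  have lt := loc_bd (3 * φ.length + k) t
  have lT := loc_bd (3 * φ.length + k) true
  have l1 := loc_bd x1 (τ x1)
  have l1' := loc_bd x1 (!q1)
  have l2 := loc_bd x2 (τ x2)
  have l2' := loc_bd x2 (!q2)
  have l3 := loc_bd x3 (τ x3)
  have l3' := loc_bd x3 (!q3)
  refine ⟨?_, ?_, ?_, ?_, ?_, ?_, ?_, ?_, ?_, ?_, ?_, ?_, ?_, ?_, ?_, ?_, ?_⟩
  · exact seq_touch (u := loc x3 (τ x3)) hK (by omega) (by omega) (by omega)
      (by rw [r0, Sym2.eq_swap])
  · exact seq_touch (by omega) (by omega) (by omega) (by omega) r0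
  · exact seq_m b3 (by omega) (by omega) r0
  · exact seq_touch (u := loc x3 (!q3)) hK (by omega) (by omega) (by omega)
      (by rw [r1, Sym2.eq_swap])
  · exact seq_pin (by omega) (by omega) (by omega) r1
  · exact seq_touch (u := loc x1 (τ x1)) hK (by omega) (by omega) (by omega)
      (by rw [r2, Sym2.eq_swap])
  · exact seq_touch (by omega) (by omega) (by omega) (by omega) r2
  · exact p2 (a := loc x1 (τ x1)) (c := loc x3 (τ x3)) (by omega) (by omega) (by omega) (by omega)
      (by omega) (by omega) (by rw [r2, Sym2.eq_swap]) r0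
  · exact seq_m b1 (by omega) (by omega) r2
  · exact seq_touch (u := loc x2 (τ x2)) hK (by omega) (by omega) (by omega)
      (by rw [r3, Sym2.eq_swap])
  · exact seq_touch (by omega) (by omega) (by omega) (by omega) r3
  · exact p2 (a := loc x2 (τ x2)) (c := loc x3 (!q3)) (by omega) (by omega) (by omega) (by omega)
      (by omega) (by omega) (by rw [r3, Sym2.eq_swap]) r1
  · exact seq_m b2 (by omega) (by omega) r3
  · exact seq_pin (u := loc x1 (!q1)) hK (by omega) (by omega) (by rw [r4, Sym2.eq_swap])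
  · exact seq_pin (by omega) (by omega) (by omega) r4
  · exact seq_pin (u := loc x2 (!q2)) hK (by omega) (by omega) (by rw [r5, Sym2.eq_swap])
  · exact seq_pin (by omega) (by omega) (by omega) r5

theorem complete (hd : Distinct3 φ) (hb : Bounded3 φ) (h : SAT3 φ) : Realisable (inst φ) := by
  obtain ⟨τ, hτ⟩ := h
  have hinj := rr_injOn hd hb hτ
  refine ⟨Fin (24 * φ.length + 1), inferInstance,
    SimpleGraph.fromEdgeSet (rr φ τ '' {e | e ∈ List.range (33 * φ.length)}), rr φ τ, ⟨?_, ?_⟩⟩
  · have he : (SimpleGraph.fromEdgeSet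
        (rr φ τ '' {e | e ∈ List.range (33 * φ.length)})).edgeSet =
        rr φ τ '' {e | e ∈ List.range (33 * φ.length)} := by
      rw [SimpleGraph.edgeSet_fromEdgeSet]
      refine sdiff_eq_left.2 ?_
      rw [Set.disjoint_left]
      rintro z ⟨e, he, rfl⟩ hdiag
      rw [Set.mem_ofPred_eq, List.mem_range] at he
      have h1 := en_bd (τ := τ) hb he
      have h2 : Sym2.IsDiag (rr φ τ e) := hdiag
      unfold rr at h2
      rw [Sym2.mk_isDiag_iff] at h2
      exact h1.2.2 (vx_inj h1.1 h1.2.1 h2)
    rw [he]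
    exact hinj.bijOn_image
  · intro s hs
    change s ∈ seqs φ at hs
    unfold seqs at hs
    rcases List.mem_cons.1 hs with rfl | hs
    · exact seq_frame
    · rcases List.mem_append.1 hs with hs | hs
      · obtain ⟨x, hx, hs⟩ := List.mem_flatMap.1 hs
        rw [List.mem_range] at hx
        simp only [List.mem_cons, List.not_mem_nil, or_false] at hs
        rcases hs with rfl | rfl
        · exact seq_m1 hx
        · exact seq_m2 hx
      · obtain ⟨⟨c, k⟩, hc, hs⟩ := List.mem_flatMap.1 hs
        rw [List.mk_mem_zipIdx_iff_getElem?] at hc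
        obtain ⟨hk, rfl⟩ := List.getElem?_eq_some_iff.1 hc
        exact seqs_cl hd hb hk s hs

theorem pin_mem {e i L x : ℕ} {b : Bool} (he : e < 33 * L) (hi : i < 4 * L)
    (hx : x ∈ pin e i b) : x < 33 * L := by
  unfold pin at hx
  split_ifs at hx <;> simp only [List.mem_cons, List.not_mem_nil, or_false] at hx <;>
    rcases hx with rfl | rfl | rfl <;> omega

theorem valid_inst (hb : Bounded3 φ) : Valid (inst φ) := by
  refine ⟨List.nodup_range, fun s hs e he => ?_⟩
  change e ∈ List.range (33 * φ.length)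
  rw [List.mem_range]
  change s ∈ seqs φ at hs
  unfold seqs at hs
  rcases List.mem_cons.1 hs with rfl | hs
  · rw [List.mem_range] at he
    omega
  · rcases List.mem_append.1 hs with hs | hs
    · obtain ⟨x, hx, hs⟩ := List.mem_flatMap.1 hs
      rw [List.mem_range] at hx
      simp only [List.mem_cons, List.not_mem_nil, or_false] at hs
      rcases hs with rfl | rfl <;> simp only [List.mem_cons, List.not_mem_nil, or_false] at he <;>
        omega
    · obtain ⟨⟨c, k⟩, hc, hs⟩ := List.mem_flatMap.1 hs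
      rw [List.mk_mem_zipIdx_iff_getElem?] at hc
      obtain ⟨hk, rfl⟩ := List.getElem?_eq_some_iff.1 hc
      have hb' := hb _ (List.getElem_mem hk)
      generalize φ[k] = c at *
      obtain ⟨⟨p1, x1⟩, ⟨p2, x2⟩, ⟨p3, x3⟩⟩ := c
      obtain ⟨b1, b2, b3⟩ := hb'
      simp only at b1 b2 b3
      simp only [clSeqs, List.mem_cons, List.not_mem_nil, or_false] at hs
      rcases hs with rfl | rfl | rfl | rfl | rfl | rfl | rfl | rfl | rfl | rfl | rfl | rfl | rfl |
        rfl | rfl | rfl | rfl
      all_goals first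
        | exact pin_mem (by omega) (by omega) he
        | (simp only [List.mem_cons, List.not_mem_nil, or_false] at he; omega)

/-! ### Polynomial time -/

section

variable {α : Type} [TEnc α]

theorem poly_pair2 {a b : α → ℕ} (ha : Poly a) (hb : Poly b) : Poly (fun t => [a t, b t]) :=
  Poly.cons ha (Poly.cons hb (Poly.const []))

theorem poly_lin {a : α → ℕ} (ha : Poly a) (m c : ℕ) : Poly (fun t => m * a t + c) :=
  Poly.add (Poly.mul (Poly.const m) ha) (Poly.const c)

theorem poly_mul' {a : α → ℕ} (ha : Poly a) (m : ℕ) : Poly (fun t => m * a t) :=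
  Poly.mul (Poly.const m) ha

theorem poly_pin {e i : α → ℕ} {b : α → Bool} (he : Poly e) (hi : Poly i) (hb : Poly b) :
    Poly (fun t => pin (e t) (i t) (b t)) := by
  unfold pin
  have hb' : Poly (fun t => decide (b t = true)) := hb.congr fun a => by simp
  exact Poly.ite hb' (Poly.cons he (Poly.cons (poly_lin hi 6 1) (Poly.cons (poly_mul' hi 6)
    (Poly.const [])))) (Poly.cons he (Poly.cons (poly_lin hi 6 1) (Poly.cons (poly_lin hi 6 2)
    (Poly.const []))))

end

theorem poly_clSeqs : Poly (fun t : List Cl × (Cl × ℕ) => clSeqs t.1.length t.2) := by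
  have hL : Poly (fun t : List Cl × (Cl × ℕ) => t.1.length) := Poly.length (Poly.fst Poly.id)
  have hk : Poly (fun t : List Cl × (Cl × ℕ) => t.2.2) := Poly.snd (Poly.snd Poly.id)
  have hc : Poly (fun t : List Cl × (Cl × ℕ) => t.2.1) := Poly.fst (Poly.snd Poly.id)
  have c1 : Poly (fun t : List Cl × (Cl × ℕ) => t.2.1.1) := Poly.fst hc
  have c2 : Poly (fun t : List Cl × (Cl × ℕ) => t.2.1.2.1) := Poly.fst (Poly.snd hc)
  have c3 : Poly (fun t : List Cl × (Cl × ℕ) => t.2.1.2.2) := Poly.snd (Poly.snd hc)
  have x1 := Poly.snd c1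
  have x2 := Poly.snd c2
  have x3 := Poly.snd c3
  have n1 := Poly.not (Poly.fst c1)
  have n2 := Poly.not (Poly.fst c2)
  have n3 := Poly.not (Poly.fst c3)
  have h6 := poly_mul' hk 6
  have hK : Poly (fun t : List Cl × (Cl × ℕ) => 18 * t.1.length + 6 * t.2.2 + 1) :=
    Poly.add (Poly.add (poly_mul' hL 18) h6) (Poly.const 1)
  have hK' : Poly (fun t : List Cl × (Cl × ℕ) => 3 * t.1.length + t.2.2) :=
    Poly.add (poly_mul' hL 3) hk
  have e0 : Poly (fun t : List Cl × (Cl × ℕ) => 27 * t.1.length + 6 * t.2.2) :=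
    Poly.add (poly_mul' hL 27) h6
  have ej : ∀ j : ℕ, Poly (fun t : List Cl × (Cl × ℕ) => 27 * t.1.length + 6 * t.2.2 + j) :=
    fun j => Poly.add e0 (Poly.const j)
  have hm : ∀ {x : List Cl × (Cl × ℕ) → ℕ}, Poly x → Poly (fun t => 24 * t.1.length + x t) :=
    fun hx => Poly.add (poly_mul' hL 24) hx
  unfold clSeqs
  exact Poly.cons (poly_pair2 e0 hK) (Poly.cons (poly_pair2 e0 (poly_lin x3 6 1))
    (Poly.cons (poly_pair2 e0 (hm x3)) (Poly.cons (poly_pair2 (ej 1) hK)
    (Poly.cons (poly_pin (ej 1) x3 n3) (Poly.cons (poly_pair2 (ej 2) hK)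
    (Poly.cons (poly_pair2 (ej 2) (poly_lin x1 6 1)) (Poly.cons (poly_pair2 (ej 2) e0)
    (Poly.cons (poly_pair2 (ej 2) (hm x1)) (Poly.cons (poly_pair2 (ej 3) hK)
    (Poly.cons (poly_pair2 (ej 3) (poly_lin x2 6 1)) (Poly.cons (poly_pair2 (ej 3) (ej 1))
    (Poly.cons (poly_pair2 (ej 3) (hm x2)) (Poly.cons (poly_pin (ej 4) hK' (Poly.const true))
    (Poly.cons (poly_pin (ej 4) x1 n1) (Poly.cons (poly_pin (ej 5) hK' (Poly.const true))
    (Poly.cons (poly_pin (ej 5) x2 n2) (Poly.const [])))))))))))))))))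

theorem poly_inst : Poly inst := by
  have hid : Poly (fun φ : List Cl => φ) := Poly.id
  have hu : UPoly (fun φ : List Cl => φ.length) := UPoly.length hid
  unfold inst seqs
  refine Poly.pair (UPoly.range (UPoly.mul (UPoly.const 33) hu)) (Poly.cons
    (UPoly.range (UPoly.mul (UPoly.const 24) hu)) (Poly.append ?_ ?_))
  · refine Poly.flatMap (F := fun (φ : List Cl) (x : ℕ) => [[24 * φ.length + x, 6 * x + 1],
      [24 * φ.length + x, 6 * x + 4, 6 * x + 5]]) (UPoly.range (UPoly.mul (UPoly.const 3) hu)) ?_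
    have hL : Poly (fun t : List Cl × ℕ => t.1.length) := Poly.length (Poly.fst Poly.id)
    have hx : Poly (fun t : List Cl × ℕ => t.2) := Poly.snd Poly.id
    have hm : Poly (fun t : List Cl × ℕ => 24 * t.1.length + t.2) :=
      Poly.add (poly_mul' hL 24) hx
    exact Poly.cons (poly_pair2 hm (poly_lin hx 6 1)) (Poly.cons (Poly.cons hm
      (poly_pair2 (poly_lin hx 6 4) (poly_lin hx 6 5))) (Poly.const []))
  · exact Poly.flatMap (F := fun (φ : List Cl) (p : Cl × ℕ) => clSeqs φ.length p)
      (Poly.zipIdx hid) poly_clSeqs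

theorem poly_eq_true : Poly (fun y : List Bool => decide (y = [true])) :=
  Poly.decide_eq Poly.id (Poly.const [true])

/-! ### Hardness -/

theorem hardPr_realisable : HardPr Valid Realisable := by
  refine hardPr_SAT3b.trans (f := inst) poly_inst ?_ ?_
  · rintro φ ⟨_, hb, _⟩
    exact valid_inst hb
  · rintro φ ⟨hd, hb, _⟩
    exact ⟨complete hd hb, sound hd hb⟩

end Pool.Agent.NPC.V11230.ES

namespace Pool.Agent.Results.MP_a6fa5c_lc.RealisationNPHard

open Pool.Agent.NPC Pool.Agent.NPC.V11230.ES

/-- **Deciding whether given edge sequences can be realised as paths of a simple graph is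
`NP`-hard**, so there is no polynomial-time algorithm for it unless `P = NP`. -/
theorem result :
    (∀ L : Set (List Bool), InNP L → ∃ f : List Bool → Inst,
      PolyTime (fun x => bits (f x)) ∧ (∀ x, Valid (f x)) ∧
        ∀ x, x ∈ L ↔ Realisable (f x)) ∧
    (∀ A : List Bool → List Bool, PolyTime A →
      (∀ I : Inst, Valid I → (A (bits I) = [true] ↔ Realisable I)) →
      ∀ L : Set (List Bool), InNP L → InP L) := by
  refine ⟨fun L hL => ?_, fun A hA h L hL => ?_⟩
  · obtain ⟨f, hf, hpr, hfL⟩ := hardPr_realisable L hL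
    exact ⟨f, PC.toPolyTime hf, hpr, hfL⟩
  · obtain ⟨f, hf, hpr, hfL⟩ := hardPr_realisable L hL
    have h1 : PolyTime (fun x => bits (f x)) := PC.toPolyTime hf
    have h2 : PolyTime (fun x => A (bits (f x))) := H642R2.TMSim.polyTime_comp hA h1
    refine ⟨fun x => [decide (A (bits (f x)) = [true])], polyTime_test h2 poly_eq_true, fun x => ?_⟩
    rw [hfL x, ← h (f x) (hpr x)]
    simp

end Pool.Agent.Results.MP_a6fa5c_lc.RealisationNPHard
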